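import Mathlib
import Pool.Agent.W42.RG.Defs2

set_option autoImplicit false
set_option linter.unusedSectionVars false
set_option linter.unusedVariables false

/-! Project LY, part RW: the step for a function of small correlations along one direction. -/

namespace Pool.Agent.W333.LY

open Finset Filter Topology MeasureTheory Pool.Agent.W42.RN Pool.Agent.W42.RL Pool.Agent.W42.RG

variable {X : Type} [MeasurableSpace X] {μ : Measure X} [IsProbabilityMeasure μ]

/-- the flow along the real line through `η` -/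
theorem flow_line {T : X ≃ᵐ X} {Z : ℂ → X → X} {ω : ℂ} (hZ : RF μ T Z ω) (η : ℂ) :
    Flow μ (fun u : ℝ => Z (u • η)) := by
  refine ⟨fun u => hZ.mp _, ?_, fun u v => hZ.line η u v, fun f hf u => ?_⟩
  · have h := hZ.zero
    simpa only [zero_smul] using h
  · have h := hZ.cont f hf (u • η)
    have hc : Tendsto (fun v : ℝ => v • η) (𝓝 u) (𝓝 (u • η)) :=
      (continuous_id.smul continuous_const).tendsto u
    exact h.comp hc

theorem t_RW (hR : S_RLSH) : S_RW := by
  intro X _ μ _ T hT Z ω hω hZ x hx r hr hs N hN hmix U hU j f hf K hK1 hK h hh M hM η δ hη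
  have hP : Act μ (pw T) := act_pw hT
  have hfl := flow_line hZ η
  obtain ⟨c, hcj, ρ, σ, hσ, hρc, hρj, hsh⟩ := hR X μ T hT Z ω hω hZ x hx r hr hs (N + 1) U hU j (by
    by_cases h0 : j = 0
    · refine ⟨Fin.last N, fun h1 => ?_⟩
      rw [h0] at h1
      have := congrArg Fin.val h1
      simp at this
      omega
    · exact ⟨0, fun h1 => h0 h1.symm⟩)
  have hσj : σ j ≠ 0 := by
    intro h0
    have := hσ j
    rw [h0, norm_zero] at this
    exact zero_ne_one this
  set ζ : ℕ → ℂ := fun a => ((a : ℂ) + 1) * (ρ j : ℂ) * (σ j)⁻¹ * η with hζ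
  have hζj : ∀ a : ℕ, (ρ j : ℂ) * σ j * ζ a = ((a : ℝ) + 1) • η := by
    intro a
    have h1 : (ρ j : ℂ) * (ρ j : ℂ) = 1 := by
      rcases hρj with h2 | h2 <;> rw [h2] <;> norm_num
    have h2 : σ j * (σ j)⁻¹ = 1 := mul_inv_cancel₀ hσj
    rw [Complex.real_smul, hζ]
    simp only
    push_cast
    calc (ρ j : ℂ) * σ j * (((a : ℂ) + 1) * (ρ j : ℂ) * (σ j)⁻¹ * η) =
        ((ρ j : ℂ) * (ρ j : ℂ)) * (σ j * (σ j)⁻¹) * (((a : ℂ) + 1) * η) := by ring
      _ = _ := by rw [h1, h2]; ring
  set f' := Function.update f j h with hf'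
  have hf'B : ∀ i, Bd (f' i) := Bd.update hf j hh
  set F : ℕ → Fin (N + 1) → X → ℂ := fun a =>
    Function.update (fun i p => f' i (Z ((ρ i : ℂ) * σ i * ζ a) p)) c (f c) with hF
  have hFB : ∀ a i, Bd (F a i) := fun a =>
    Bd.update (fun i => (hf'B i).comp (hZ.mp _).measurable) c (hf c)
  have h1 : ∀ a, L μ (pw T) U (F a) = L μ (pw T) U f' := by
    intro a
    rw [← hsh (ζ a) f' hf'B]
    apply L_congr_ae hP (hFB a) (fun i => (hf'B i).comp (hZ.mp _).measurable)
    intro i
    by_cases hi : i = c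
    · subst hi
      simp only [hF, Function.update_self]
      rw [hρc]
      simp only [Complex.ofReal_zero, zero_mul]
      have h2 := hZ.zero.fn (hf i).meas
      have h3 : f' i = f i := by rw [hf', Function.update_of_ne hcj]
      rw [h3]
      exact h2.symm
    · simp only [hF]
      rw [Function.update_of_ne hi]
  have hFc : ∀ a, F a c = f c := by
    intro a
    simp only [hF, Function.update_self]
  have h2 := L_cs1 hP c M F hFB (f c) (hf c) hFc K (hK c) (U := U)
  have h3 : ‖∑ a ∈ range M, L μ (pw T) U (F a)‖ ^ 2 = (M : ℝ) ^ 2 * ‖L μ (pw T) U f'‖ ^ 2 := by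
    simp_rw [h1]
    rw [sum_const, card_range, nsmul_eq_mul, norm_mul, Complex.norm_natCast]
    ring
  rw [h3] at h2
  have hF1 : ∀ a i p, i ≠ j → ‖F a i p‖ ≤ K := by
    intro a i p hi
    by_cases hic : i = c
    · subst hic
      rw [hFc]; exact hK _ _
    · simp only [hF, hf']
      rw [Function.update_of_ne hic, Function.update_of_ne hi]
      exact hK _ _
  have hterm : ∀ a b : ℕ, ‖L μ (pw T) U (Function.update (fun i p => F a i p *
      (starRingEnd ℂ) (F b i p)) c fun _ => 1)‖
      ≤ (K ^ 2) ^ (N + 1) * ‖∫ p, h (Z ((a : ℝ) • η) p) *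
        (starRingEnd ℂ) (h (Z ((b : ℝ) • η) p)) ∂μ‖ := by
    intro a b
    rw [L_drop hmix hU c fun i => (hFB a i).mul (hFB b i).conj]
    have h4 := norm_prod_le_factor (fun i => ∫ p, Function.update (fun i p => F a i p *
      (starRingEnd ℂ) (F b i p)) c
      (fun _ => 1) i p ∂μ) j (K ^ 2) (one_le_pow₀ hK1) (by
        intro i hi
        by_cases hic : i = c
        · subst hic
          simp only [Function.update_self]
          have e1 : ‖∫ _p : X, (1 : ℂ) ∂μ‖ = 1 := by simp
          rw [e1]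
          exact one_le_pow₀ hK1
        · simp only [Function.update_of_ne hic]
          apply norm_int_le
          intro p
          rw [norm_mul, RCLike.norm_conj]
          have g1 := hF1 a i p hi
          have g2 := hF1 b i p hi
          calc _ ≤ K * K := mul_le_mul g1 g2 (norm_nonneg _) (by linarith)
            _ = K ^ 2 := by ring)
    refine h4.trans (le_of_eq ?_)
    congr 1
    rw [Function.update_of_ne hcj.symm]
    have e : ∀ a : ℕ, F a j = fun p => h (Z (((a : ℝ) + 1) • η) p) := by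
      intro a
      simp only [hF, hf']
      rw [Function.update_of_ne hcj.symm, Function.update_self, hζj]
    rw [e, e]
    have h5 := flow_inv hfl hh (a : ℝ) (b : ℝ) 1
    rw [h5]
  have h5 : (M : ℝ) ^ 2 * ‖L μ (pw T) U f'‖ ^ 2 ≤
      K ^ 2 * ((K ^ 2) ^ (N + 1) * (δ * (M : ℝ) ^ 2)) := by
    refine h2.trans (mul_le_mul_of_nonneg_left ?_ (by positivity))
    calc _ ≤ ∑ a ∈ range M, ∑ b ∈ range M, (K ^ 2) ^ (N + 1) *
          ‖∫ p, h (Z ((a : ℝ) • η) p) * (starRingEnd ℂ) (h (Z ((b : ℝ) • η) p)) ∂μ‖ :=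
          sum_le_sum fun a _ => sum_le_sum fun b _ => hterm a b
      _ = (K ^ 2) ^ (N + 1) * ∑ a ∈ range M, ∑ b ∈ range M,
          ‖∫ p, h (Z ((a : ℝ) • η) p) * (starRingEnd ℂ) (h (Z ((b : ℝ) • η) p)) ∂μ‖ := by
          rw [mul_sum]; refine sum_congr rfl fun a _ => ?_; rw [mul_sum]
      _ ≤ _ := mul_le_mul_of_nonneg_left hη (by positivity)
  have hM2 : (0 : ℝ) < (M : ℝ) ^ 2 := by positivity
  refine le_of_mul_le_mul_left ?_ hM2
  refine h5.trans (le_of_eq ?_)
  ring

end Pool.Agent.W333.LY
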